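import Pool.Agent.H.MP_bb030f_lc.Red

set_option autoImplicit false

namespace Pool.Agent.Results.MP_117856_lc.Full

open Pool.Agent.Lib.CX Pool.Agent.H.MP_bb030f_lc Finset

/-- Equistable graphs. -/
def Equi {V : Type} (G : SimpleGraph V) : Prop :=
  ∃ t : ℕ, 0 < t ∧ ∃ w : V → ℕ, ∀ S : Finset V,
    Maximal G.IsIndepSet (S : Set V) ↔ ∑ v ∈ S, w v = t

lemma digits {m b : ℕ} (d : Fin m → ℕ) (hd : ∀ i, d i < b) (hb : 1 < b)
    (h : ∑ i, d i * b ^ i.1 = ∑ i : Fin m, b ^ i.1) (i : Fin m) : d i = 1 := by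
  have := finFunctionFinEquiv.injective (a₁ := fun i => (⟨d i, hd i⟩ : Fin b))
    (a₂ := fun _ => ⟨1, hb⟩) (Fin.ext (by simpa using h))
  exact congrArg Fin.val (congrFun this i)

lemma cis_equi {V : Type} [Fintype V] (G : SimpleGraph V) (h : Cis G) : Equi G := by
  classical
  let e := (Fintype.equivFin {C : Set V // Maximal G.IsClique C}).symm
  obtain ⟨Q0, -, h0⟩ := ext_clique G (T := ∅) (by simp)
  set b := Fintype.card V + 2
  refine ⟨∑ i, b ^ i.1, sum_pos (fun _ _ => by positivity) ⟨e.symm ⟨Q0, h0⟩, mem_univ _⟩,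
    fun v => ∑ i, if v ∈ (e i).1 then b ^ i.1 else 0, fun S => ?_⟩
  have h1 : (∑ v ∈ S, ∑ i, if v ∈ (e i).1 then b ^ i.1 else 0) =
      ∑ i, (S.filter (· ∈ (e i).1)).card * b ^ i.1 := by
    rw [sum_comm]
    simp [← sum_filter]
  rw [h1]
  constructor
  · intro hS
    refine sum_congr rfl fun i _ => ?_
    obtain ⟨s, h2, h3⟩ := h _ _ (e i).2 hS
    rw [card_eq_one.2 ⟨s, eq_singleton_iff_unique_mem.2 ⟨mem_filter.2 ⟨h3, h2⟩, fun x hx => ?_⟩⟩,
      one_mul]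
    by_contra h4
    exact hS.1 (mem_filter.1 hx).1 h3 h4 ((e i).2.1 (mem_filter.1 hx).2 h2 h4)
  · intro h2
    have h3 : ∀ C, Maximal G.IsClique C → (S.filter (· ∈ C)).card = 1 := fun C hC => by
      simpa using digits _ (fun i => (card_le_univ _).trans_lt (by omega)) (by omega) h2
        (e.symm ⟨C, hC⟩)
    refine (max_iff _ _).2 ⟨fun x hx y hy e => ?_, fun v hv => ?_⟩
    · obtain ⟨Q, h4, h5⟩ := ext_clique G (SimpleGraph.isClique_pair.2 fun _ => e)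
      exact e.ne (card_le_one.1 (h3 Q h5).le x (mem_filter.2 ⟨hx, h4 (by simp)⟩) y
        (mem_filter.2 ⟨hy, h4 (by simp)⟩))
    · obtain ⟨Q, h4, h5⟩ := ext_clique G (G.isClique_singleton v)
      obtain ⟨s, h6⟩ := card_pos.1 (h3 Q h5).ge
      rw [mem_filter] at h6
      exact ⟨s, h6.1, h5.1 h6.2 (h4 rfl) fun e => hv (e ▸ h6.1)⟩

lemma equi_tri {V : Type} [Fintype V] (G : SimpleGraph V) (h : Equi G) : Tri G := by
  classical
  obtain ⟨t, -, w, h⟩ := h
  intro S hS u v hu hv e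
  by_contra hc
  push Not at hc
  have ex : ∀ u, ∃ T : Finset V, Maximal G.IsIndepSet (T : Set V) ∧ u ∈ T ∧
      ∀ s ∈ S, s ∈ T ↔ ¬ G.Adj s u := fun u => by
    obtain ⟨T, h1, h2⟩ := Finite.exists_le_maximal (p := G.IsIndepSet)
      (a := insert u {s ∈ S | ¬ G.Adj s u}) (by
        rintro x (rfl | hx) y (rfl | hy) ne
        exacts [G.irrefl, fun e => hy.2 e.symm, hx.2, hS.1 hx.1 hy.1 ne])
    refine ⟨T.toFinset, by simpa using h2, by simpa using h1 (.inl rfl), fun s hs => ?_⟩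
    simpa using ⟨fun h3 e => h2.1 h3 (h1 (.inl rfl)) e.ne e, fun h3 => h1 (.inr ⟨hs, h3⟩)⟩
  obtain ⟨A, a1, a2, a3⟩ := ex u
  obtain ⟨B, b1, b2, b3⟩ := ex v
  have s1 : S.toFinset ⊆ A ∪ B := fun s hs => by
    rw [Set.mem_toFinset] at hs
    rw [mem_union, a3 s hs, b3 s hs]
    exact imp_iff_not_or.1 (hc s hs)
  have s2 : A ∩ B ⊆ S.toFinset := fun z hz => by
    rw [mem_inter] at hz
    by_contra h1
    obtain ⟨s, h2, h3⟩ := ((max_iff _ _).1 hS).2 z (by simpa using h1)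
    rcases mem_union.1 (s1 (Set.mem_toFinset.2 h2)) with h4 | h4
    exacts [a1.1 h4 hz.1 h3.ne h3, b1.1 h4 hz.2 h3.ne h3]
  have e1 := (h A).1 a1
  have e2 := (h B).1 b1
  have e3 := (h S.toFinset).1 (by simpa using hS)
  have e4 := sum_union_inter (s₁ := A) (s₂ := B) (f := w)
  have e5 := sum_sdiff (f := w) s1
  have e6 := sum_union (f := w) (s₁ := (A ∪ B) \ S.toFinset) (s₂ := A ∩ B)
    (disjoint_of_subset_right s2 sdiff_disjoint)
  exact ((h ((A ∪ B) \ S.toFinset ∪ A ∩ B)).2 (by omega)).1 (by simp [a2, hu]) (by simp [b2, hv])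
    e.ne e

theorem result : (NPHard fun a : Gr => ¬ Equi a.G) ∧
    ((InNP fun a : Gr => Equi a.G) →
      ∀ A : List Bool → Prop, InNP A → InNP fun x => ¬ A x) := by
  have h : NPHard fun a : Gr => ¬ Equi a.G :=
    sandwich _ (fun a _ => cis_equi a.G) fun a => equi_tri a.G
  refine ⟨h, fun h1 A hA => ?_⟩
  obtain ⟨f, h2, h3⟩ := h A hA
  exact h1.red ⟨f, h2, fun x => by simp [h3]⟩

end Pool.Agent.Results.MP_117856_lc.Full
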